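import Pool.Agent.Y716.C.Defs

/-!
# Weak approximation for almost all systems (job C9)

Port of `Pool/Agent/Y716/Q/WA.lean` and `Pool/Agent/Y716/Q/WA2.lean` (helper716) to systems.
-/

namespace Pool.Agent.Y438.C

open Pool.Agent.Y716.Q Pool.Agent.Y716.C Filter

section
variable {ι : Type*} [Fintype ι] {s : ℕ}

/-- normalised `p`-adic zeros -/
theorem padic_norm_dataS {p : ℕ} [Fact p.Prime] {dg : Fin s → ℕ}
    (f : Fin s → MvPolynomial ι ℤ) (hf : ∀ j, (f j).IsHomogeneous (dg j)) (x : ι → ℚ_[p])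
    (hx0 : x ≠ 0) (hxf : ∀ j, MvPolynomial.aeval x (f j) = 0) :
    ∃ (r : ι) (y : ι → ℤ_[p]), x r ≠ 0 ∧ ‖x r‖ ≤ ‖x‖ ∧ (∀ i, x i = x r * y i) ∧ y r = 1 ∧
      ∀ j, MvPolynomial.aeval y (f j) = 0 := by
  classical
  have hne : Nonempty ι := by
    by_contra hcon
    rw [not_nonempty_iff] at hcon
    exact hx0 (Subsingleton.elim _ _)
  obtain ⟨r, -, hr⟩ := Finset.exists_max_image Finset.univ (fun i => ‖x i‖)
    ⟨Classical.arbitrary ι, Finset.mem_univ _⟩
  have hxr : x r ≠ 0 := by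
    intro h0
    apply hx0
    funext i
    have := hr i (Finset.mem_univ i)
    rw [h0, norm_zero] at this
    simpa using norm_le_zero_iff.mp this
  have hle : ∀ i, ‖(x r)⁻¹ * x i‖ ≤ 1 := by
    intro i
    rw [norm_mul, norm_inv, inv_mul_le_iff₀ (norm_pos_iff.mpr hxr), mul_one]
    exact hr i (Finset.mem_univ i)
  set y : ι → ℤ_[p] := fun i => ⟨(x r)⁻¹ * x i, hle i⟩ with hy
  refine ⟨r, y, hxr, norm_le_pi_norm x r, fun i => ?_, ?_, fun j => ?_⟩
  · change x i = x r * ((x r)⁻¹ * x i)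
    rw [mul_inv_cancel_left₀ hxr]
  · apply Subtype.ext
    simp [hy, hxr]
  · have h1 : (algebraMap ℤ_[p] ℚ_[p]) (MvPolynomial.aeval y (f j)) = 0 := by
      have h2 : (algebraMap ℤ_[p] ℚ_[p]) (MvPolynomial.aeval y (f j))
          = MvPolynomial.aeval (fun i => (x r)⁻¹ * x i) (f j) := by
        rw [MvPolynomial.aeval_def, MvPolynomial.aeval_def, MvPolynomial.hom_eval₂]
        congr 1
      rw [h2, aeval_smul' (hf j), hxf j, mul_zero]
    have hinj : Function.Injective (algebraMap ℤ_[p] ℚ_[p]) := FaithfulSMul.algebraMap_injective _ _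
    exact (map_eq_zero_iff _ hinj).mp h1

omit [Fintype ι] in
/-- integral approximations of `p`-adic integral zeros -/
theorem approx_of_intS {p : ℕ} [Fact p.Prime] (f : Fin s → MvPolynomial ι ℤ) (y : ι → ℤ_[p])
    {r : ι} (hyr : y r = 1) (hyf : ∀ j, MvPolynomial.aeval y (f j) = 0) (E : ℕ) :
    ∃ z : ι → ℤ, z r = 1 ∧ (∀ j, (p : ℤ) ^ E ∣ MvPolynomial.eval z (f j)) ∧
      ∀ i, (p : ℤ_[p]) ^ E ∣ y i - (z i : ℤ_[p]) := by
  classical
  set z : ι → ℤ := fun i => if i = r then 1 else (PadicInt.appr (y i) E : ℤ) with hz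
  have hker : ∀ i, PadicInt.toZModPow E (y i) = ((z i : ℤ) : ZMod (p ^ E)) := by
    intro i
    by_cases hi : i = r
    · subst hi
      rw [hyr, hz]; simp
    · have : PadicInt.toZModPow E (y i) = ((PadicInt.appr (y i) E : ℕ) : ZMod (p ^ E)) := rfl
      rw [this, hz]
      simp [hi]
  refine ⟨z, by simp [hz], fun j => ?_, ?_⟩
  · have h3 : ((MvPolynomial.eval z (f j) : ℤ) : ZMod (p ^ E)) = 0 := by
      have h4 : PadicInt.toZModPow E (MvPolynomial.aeval y (f j)) =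
          ((MvPolynomial.eval z (f j) : ℤ) : ZMod (p ^ E)) := by
        rw [MvPolynomial.aeval_def, MvPolynomial.hom_eval₂]
        have h5 : ((MvPolynomial.eval z (f j) : ℤ) : ZMod (p ^ E))
            = (Int.castRingHom (ZMod (p ^ E))) (MvPolynomial.eval₂ (RingHom.id ℤ) z (f j)) := rfl
        rw [h5, MvPolynomial.hom_eval₂]
        have h6 : ((PadicInt.toZModPow E).comp (algebraMap ℤ ℤ_[p]))
            = (Int.castRingHom (ZMod (p ^ E))).comp (RingHom.id ℤ) := RingHom.ext_int _ _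
        rw [h6]
        congr 1
        funext i
        exact hker i
      rw [← h4, hyf j, map_zero]
    rw [ZMod.intCast_zmod_eq_zero_iff_dvd] at h3
    exact_mod_cast h3
  · intro i
    have h1 : PadicInt.toZModPow E (y i - (z i : ℤ_[p])) = 0 := by
      rw [map_sub, hker i, map_intCast, sub_self]
    have h2 : y i - (z i : ℤ_[p]) ∈ RingHom.ker (PadicInt.toZModPow (p := p) E) :=
      (RingHom.mem_ker).mpr h1
    rw [PadicInt.ker_toZModPow, Ideal.mem_span_singleton] at h2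
    exact h2

/-- local data at a prime -/
theorem local_pS {p : ℕ} [hp : Fact p.Prime] {dg : Fin s → ℕ} {m : ℕ} (hm : 1 ≤ m)
    (f : Fin s → MvPolynomial ι ℤ) (hf : ∀ j, (f j).IsHomogeneous (dg j)) (z : ι → ℚ_[p])
    (hz0 : z ≠ 0) (hzf : ∀ j, MvPolynomial.aeval z (f j) = 0) :
    ∃ c : ι → ℤ, (∀ E : ℕ, ∃ (r : ι) (x : ι → ℤ), x r = 1 ∧
      (∀ j, (p : ℤ) ^ E ∣ MvPolynomial.eval x (f j)) ∧ ∀ i, (p : ℤ) ^ m ∣ x i - c i) ∧
      ∀ x : ι → ℤ, (∀ i, (p : ℤ) ^ m ∣ x i - c i) → ∃ c' : ℚ_[p], c' ≠ 0 ∧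
        ∀ i, ‖z i - c' * (x i : ℚ_[p])‖ ≤ ‖z‖ / m := by
  obtain ⟨r, Y, hr0, hrn, hY, hYr, hYf⟩ := padic_norm_dataS f hf z hz0 hzf
  obtain ⟨c, hc1, hc2, hc3⟩ := approx_of_intS f Y hYr hYf m
  refine ⟨c, fun E => ?_, fun x hx => ?_⟩
  · obtain ⟨x, hx1, hx2, hx3⟩ := approx_of_intS f Y hYr hYf (max E m)
    refine ⟨r, x, hx1, fun j => (pow_dvd_pow _ (le_max_left _ _)).trans (hx2 j), fun i => ?_⟩
    rw [← padic_dvd_iff]
    push_cast
    have h1 := (pow_dvd_pow (p : ℤ_[p]) (le_max_right E m)).trans (hx3 i)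
    have := dvd_sub (hc3 i) h1
    simpa using this
  · refine ⟨z r, hr0, fun i => ?_⟩
    have h1 : (p : ℤ_[p]) ^ m ∣ Y i - (x i : ℤ_[p]) := by
      have h2 := (padic_dvd_iff (p := p) m (x i - c i)).mpr (hx i)
      push_cast at h2
      have := dvd_sub (hc3 i) h2
      simpa using this
    have h2 : ‖Y i - (x i : ℤ_[p])‖ ≤ (p : ℝ) ^ (-(m : ℤ)) := by
      rw [PadicInt.norm_le_pow_iff_mem_span_pow, Ideal.mem_span_singleton]
      exact h1
    have h3 : z i - z r * (x i : ℚ_[p]) = z r * ((Y i - (x i : ℤ_[p]) : ℤ_[p]) : ℚ_[p]) := by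
      rw [hY i]
      push_cast
      ring
    rw [h3, norm_mul]
    have h4 : ‖((Y i - (x i : ℤ_[p]) : ℤ_[p]) : ℚ_[p])‖ = ‖Y i - (x i : ℤ_[p])‖ := rfl
    rw [h4, div_eq_mul_one_div]
    apply mul_le_mul hrn (h2.trans _) (norm_nonneg _) (norm_nonneg _)
    rw [zpow_neg, zpow_natCast, ← one_div]
    apply one_div_le_one_div_of_le (by exact_mod_cast hm)
    have h5 : m < 2 ^ m := Nat.lt_two_pow_self
    have h6 : 2 ^ m ≤ p ^ m := Nat.pow_le_pow_left hp.out.two_le _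
    have h7 : m ≤ p ^ m := by omega
    exact_mod_cast h7

theorem wa_of_targetsS {dg : Fin s → ℕ} {m : ℕ} (hm : 1 ≤ m) {f : Fin s → MvPolynomial ι ℤ}
    (hf : ∀ j, (f j).IsHomogeneous (dg j))
    (h : ∀ t ∈ targets ι m,
      LocSolTS (modN m) t.1 (fun i => (t.2 i : ℝ) / (3 * m)) (1 / (3 * m)) f →
      SolTS (modN m) t.1 (fun i => (t.2 i : ℝ) / (3 * m)) (1 / (3 * m)) f) :
    WeakApproxS m f := by
  classical
  intro z y hz hy0 hyf
  have hmr : (1:ℝ) ≤ m := by exact_mod_cast hm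
  -- data at the primes
  have hloc : ∀ p : ℕ, p.Prime → ∃ c : ι → ℤ, (∀ E : ℕ, ∃ (r : ι) (x : ι → ℤ), x r = 1 ∧
      (∀ j, (p : ℤ) ^ E ∣ MvPolynomial.eval x (f j)) ∧ ∀ i, (p : ℤ) ^ m ∣ x i - c i) ∧
      ∀ x : ι → ℤ, (∀ i, (p : ℤ) ^ m ∣ x i - c i) → ∀ [Fact p.Prime], ∃ c' : ℚ_[p], c' ≠ 0 ∧
        ∀ i, ‖z p i - c' * (x i : ℚ_[p])‖ ≤ ‖z p‖ / m := by
    intro p hp
    have : Fact p.Prime := ⟨hp⟩
    obtain ⟨c, h1, h2⟩ := local_pS hm f hf (z p) (hz p).1 (hz p).2
    exact ⟨c, h1, fun x hx _ => h2 x hx⟩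
  choose! cP hcP1 hcP2 using hloc
  -- Chinese remainder theorem
  have hcrt : ∀ i, ∃ c : ℤ, c ∈ Finset.Ico (0 : ℤ) (modN m) ∧
      ∀ p ∈ primesUpTo m, (p : ℤ) ^ m ∣ c - cP p i := by
    intro i
    have := Ideal.exists_forall_sub_mem_ideal (R := ℤ)
      (I := fun p : primesUpTo m => Ideal.span {((p : ℕ) : ℤ) ^ m}) (by
        intro p q hpq
        simp only [Function.onFun]
        rw [Ideal.isCoprime_span_singleton_iff]
        exact (Nat.isCoprime_iff_coprime.mpr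
          (primes_coprime p.2 q.2 (fun h => hpq (Subtype.ext h)))).pow) (fun p => cP p i)
    obtain ⟨c, hc⟩ := this
    have hN0 : (0 : ℤ) < modN m := by exact_mod_cast modN_pos m
    refine ⟨c % (modN m : ℤ), ?_, fun p hp => ?_⟩
    · rw [Finset.mem_Ico]
      exact ⟨Int.emod_nonneg _ hN0.ne', Int.emod_lt_of_pos _ hN0⟩
    · have h1 : (p : ℤ) ^ m ∣ c - cP p i := Ideal.mem_span_singleton.mp (hc ⟨p, hp⟩)
      have h2 : (p : ℤ) ^ m ∣ (modN m : ℤ) := by
        exact_mod_cast dvd_modN (mem_primesUpTo.mp hp).2 (mem_primesUpTo.mp hp).1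
      have h3 : (modN m : ℤ) ∣ c % (modN m : ℤ) - c := by
        have := Int.emod_add_mul_ediv c (modN m : ℤ)
        exact ⟨-(c / (modN m : ℤ)), by linarith⟩
      have := dvd_add (h2.trans h3) h1
      simpa using this
  choose c hc1 hc2 using hcrt
  -- real data
  obtain ⟨r, hr0, hrn, hr1⟩ := real_norm_data y hy0
  have hgrid : ∀ i, ∃ t ∈ Finset.Icc (-(3 * m : ℤ)) (3 * m),
      |(y r)⁻¹ * y i - (t : ℝ) / (3 * m)| ≤ 1 / (3 * m) := by
    intro i
    have h1 := abs_le.mp (hr1 i)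
    have h3 : (0:ℝ) < 3 * m := by linarith
    refine ⟨⌊(y r)⁻¹ * y i * (3 * m)⌋, ?_, ?_⟩
    · rw [Finset.mem_Icc]
      constructor
      · rw [Int.le_floor]
        push_cast
        have := mul_le_mul_of_nonneg_right h1.1 h3.le
        linarith
      · have h4 : (⌊(y r)⁻¹ * y i * (3 * m)⌋ : ℝ) ≤ 3 * m := by
          refine (Int.floor_le _).trans ?_
          have := mul_le_mul_of_nonneg_right h1.2 h3.le
          linarith
        exact_mod_cast h4
    · have h4 := Int.floor_le ((y r)⁻¹ * y i * (3 * m))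
      have h5 := Int.lt_floor_add_one ((y r)⁻¹ * y i * (3 * m))
      have h6 : (y r)⁻¹ * y i - (⌊(y r)⁻¹ * y i * (3 * m)⌋ : ℝ) / (3 * m) =
          ((y r)⁻¹ * y i * (3 * m) - ⌊(y r)⁻¹ * y i * (3 * m)⌋) / (3 * m) := by
        field_simp
      rw [h6, abs_div, abs_of_pos h3]
      apply div_le_div_of_nonneg_right _ h3.le
      rw [abs_le]
      constructor <;> linarith
  choose t ht1 ht2 using hgrid
  have hmem : (c, t) ∈ targets ι m := by
    unfold targets
    rw [Finset.mem_product, Fintype.mem_piFinset, Fintype.mem_piFinset]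
    exact ⟨hc1, ht1⟩
  have hL : LocSolTS (modN m) c (fun i => (t i : ℝ) / (3 * m)) (1 / (3 * m)) f := by
    constructor
    · intro p hp E
      obtain ⟨r', x, hx1, hx2, hx3⟩ := hcP1 p hp E
      refine ⟨r', x, hx1, hx2, fun a ha i => ?_⟩
      rcases pow_dvd_modN hp ha with ⟨h1, h2⟩ | h1
      · have h3 : (p : ℤ) ^ a ∣ (p : ℤ) ^ m := by exact_mod_cast h2
        refine h3.trans ?_
        have := dvd_sub (hx3 i) (hc2 i p (mem_primesUpTo.mpr ⟨h1, hp⟩))
        simpa using this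
      · have h3 : (p : ℤ) ^ a = 1 := by exact_mod_cast h1
        rw [h3]; exact one_dvd _
    · refine ⟨r, fun i => (y r)⁻¹ * y i, inv_mul_cancel₀ hr0, hr1, ht2, fun j => ?_⟩
      rw [aeval_smul' (hf j), hyf j, mul_zero]
  obtain ⟨x, hx1, hx2, hx3, P, hP, hx4⟩ := h (c, t) hmem hL
  simp only at hx3 hx4
  refine ⟨fun i => (x i : ℚ), ?_, fun j => by rw [aeval_cast, hx2 j, Int.cast_zero], ?_, ?_⟩
  · intro h0
    apply hx1.ne_zero'
    funext i
    have := congrFun h0 i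
    simp only [Pi.zero_apply] at this
    exact_mod_cast this
  · intro p hp hpm
    have := hcP2 p hp.out x (fun i => by
      have h1 : (p : ℤ) ^ m ∣ (modN m : ℤ) := by exact_mod_cast dvd_modN hp.out hpm
      have := dvd_add (h1.trans (hx3 i)) (hc2 i p (mem_primesUpTo.mpr ⟨hpm, hp.out⟩))
      simpa using this)
    obtain ⟨c', h1, h2⟩ := this
    refine ⟨c', h1, fun i => ?_⟩
    have := h2 i
    simpa using this
  · refine ⟨y r / P, div_ne_zero hr0 hP.ne', fun i => ?_⟩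
    have h1 := ht2 i
    have h2 := hx4 i
    have h3 : y i - y r / P * ((x i : ℚ) : ℝ) =
        y r * (((y r)⁻¹ * y i - (t i : ℝ) / (3 * m)) - ((x i : ℝ) - P * ((t i : ℝ) / (3 * m))) / P) := by
      push_cast
      field_simp
      ring
    have h6 : ‖y‖ / m = ‖y‖ * (1 / m) := div_eq_mul_one_div _ _
    rw [h3, abs_mul, h6]
    apply mul_le_mul hrn _ (abs_nonneg _) (norm_nonneg _)
    refine (abs_sub _ _).trans ?_
    have h4 : |((x i : ℝ) - P * ((t i : ℝ) / (3 * m))) / P| ≤ 2 * (1 / (3 * m)) := by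
      rw [abs_div, abs_of_pos hP, div_le_iff₀ hP]
      exact h2
    have h5 : (1 : ℝ) / m = 3 * (1 / (3 * m)) := by field_simp
    rw [h5]
    linarith

omit [Fintype ι] in
/-- integral zeros are zeros over all the completions -/
theorem els_of_zero {f : Fin s → MvPolynomial ι ℤ}
    (h : ∃ x : ι → ℤ, x ≠ 0 ∧ ∀ j, MvPolynomial.eval x (f j) = 0) : ElsS f := by
  obtain ⟨x, hx0, hx⟩ := h
  constructor
  · refine ⟨fun i => (x i : ℝ), ?_, fun j => by rw [aeval_cast, hx j, Int.cast_zero]⟩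
    intro h0
    apply hx0
    funext i
    have := congrFun h0 i
    simp only [Pi.zero_apply] at this
    exact_mod_cast this
  · intro p _
    refine ⟨fun i => (x i : ℚ_[p]), ?_, fun j => by rw [aeval_cast, hx j, Int.cast_zero]⟩
    intro h0
    apply hx0
    funext i
    have := congrFun h0 i
    simp only [Pi.zero_apply] at this
    exact_mod_cast this

theorem ncard_eq_filterS (e : Fin s → ℕ) (R : ℝ) (p : (Fin s → MvPolynomial ι ℤ) → Prop)
    {_hp : DecidablePred p} :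
    ({f : Fin s → MvPolynomial ι ℤ | (∀ j, IsF (e j + 2) R (f j)) ∧ p f} : Set _).ncard =
      ((sysZ ι e R).filter p).card := by
  rw [← Set.ncard_coe_finset]
  congr 1
  ext f
  simp [mem_sysZ]

theorem card_sysZ_pos (e : Fin s → ℕ) {R : ℝ} (hR : 0 ≤ R) : 0 < (sysZ ι e R).card := by
  rw [card_sysZ]
  exact Finset.prod_pos fun j _ => card_forms_pos (ι := ι) (e j + 2) hR

end

open scoped Classical in
theorem wa_excS (ι : Type*) [Fintype ι] {s : ℕ} (e : Fin s → ℕ) (hexc : ExcStmtS ι e)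
    {m : ℕ} (hm : 1 ≤ m) {ε : ℝ} (hε : 0 < ε) :
    ∃ H₀ : ℝ, ∀ H : ℝ, H₀ ≤ H →
    (((sysZ ι e H).filter (fun f => ¬ WeakApproxS m f)).card : ℝ) ≤
        ε * (sysZ ι e H).card := by
  have hmr : (1:ℝ) ≤ m := by exact_mod_cast hm
  have hδ : (0:ℝ) < 1 / (3 * m) := by positivity
  have hT0 : (0:ℝ) ≤ (targets ι m).card := Nat.cast_nonneg _
  have h1 := fun t : (ι → ℤ) × (ι → ℤ) => hexc (modN m) (modN_pos m) t.1
    (fun i => (t.2 i : ℝ) / (3 * m)) (1 / (3 * m)) hδ (ε / ((targets ι m).card + 1))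
    (by positivity)
  choose Hf hHf using h1
  obtain ⟨H₀, hH₀⟩ := Finset.exists_le ((targets ι m).image Hf)
  refine ⟨H₀, fun H hH => ?_⟩
  have hsub : (sysZ ι e H).filter (fun f => ¬ WeakApproxS m f) ⊆
      (targets ι m).biUnion (fun t => (sysZ ι e H).filter (fun f =>
        LocSolTS (modN m) t.1 (fun i => (t.2 i : ℝ) / (3 * m)) (1 / (3 * m)) f ∧
        ¬ SolTS (modN m) t.1 (fun i => (t.2 i : ℝ) / (3 * m)) (1 / (3 * m)) f)) := by
    intro f hf
    rw [Finset.mem_filter] at hf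
    rw [Finset.mem_biUnion]
    by_contra hcon
    push Not at hcon
    apply hf.2
    apply wa_of_targetsS (dg := fun j => e j + 2) hm (fun j => (mem_sysZ.mp hf.1 j).1)
    intro t ht hL
    by_contra hS
    exact hcon t ht (Finset.mem_filter.mpr ⟨hf.1, hL, hS⟩)
  have h2 := (Finset.card_le_card hsub).trans Finset.card_biUnion_le
  have h3 := (Nat.cast_le (α := ℝ)).mpr h2
  push_cast at h3
  refine h3.trans ?_
  calc _ ≤ (targets ι m).card • (ε / ((targets ι m).card + 1) *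
        ((sysZ ι e H).card : ℝ)) := by
        apply Finset.sum_le_card_nsmul
        intro t ht
        exact hHf t H ((hH₀ _ (Finset.mem_image_of_mem Hf ht)).trans hH)
    _ = ((targets ι m).card / ((targets ι m).card + 1)) * (ε * ((sysZ ι e H).card : ℝ)) := by
        rw [nsmul_eq_mul]; ring
    _ ≤ 1 * (ε * ((sysZ ι e H).card : ℝ)) := by
        apply mul_le_mul_of_nonneg_right _ (by positivity)
        rw [div_le_one (by positivity)]
        linarith
    _ = _ := one_mul _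

/-- Weak approximation, with precision tending to infinity, for almost all everywhere locally
soluble systems. -/
theorem wa_sys (ι : Type*) [Fintype ι] {s : ℕ} (hs : 1 ≤ s) (e : Fin s → ℕ)
    (hexc : Pool.Agent.Y716.C.ExcStmtS ι e) (hpos : Pool.Agent.Y716.C.PosStmtS ι e) :
    Pool.Agent.Y716.C.WAStmtS ι e := by
  classical
  unfold WAStmtS
  obtain ⟨c, hc0, H₁, hH₁⟩ := hpos
  have h1 := fun m : ℕ => wa_excS ι e hexc (m := m + 1) (by omega) (ε := c / (m + 1))
    (by positivity)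
  choose Hf hHf using h1
  obtain ⟨M, hM⟩ : ∃ M : ℕ → ℕ, M = fun H : ℕ => Nat.findGreatest
      (fun j => ∀ i, i < j → Hf i ≤ (H : ℝ)) H := ⟨_, rfl⟩
  have hMtop : Tendsto M atTop atTop := by
    rw [tendsto_atTop]
    intro b
    obtain ⟨B, hB⟩ := Finset.exists_le ((Finset.range b).image Hf)
    filter_upwards [eventually_ge_atTop b, eventually_ge_atTop ⌈B⌉₊] with H hH1 hH2
    rw [hM]
    apply Nat.le_findGreatest hH1
    intro i hi
    refine (hB _ (Finset.mem_image_of_mem Hf (Finset.mem_range.mpr hi))).trans ?_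
    exact (Nat.le_ceil B).trans (by exact_mod_cast hH2)
  have hMspec : ∀ H : ℕ, 1 ≤ M H → Hf (M H - 1) ≤ (H : ℝ) := by
    intro H hH
    have h2 : ∀ i, i < M H → Hf i ≤ (H : ℝ) := by
      have := Nat.findGreatest_spec (P := fun j => ∀ i, i < j → Hf i ≤ (H : ℝ)) (m := 0) (n := H)
        (Nat.zero_le _) (fun i hi => absurd hi (Nat.not_lt_zero i))
      rw [hM]
      exact this
    exact h2 _ (by omega)
  refine ⟨M, hMtop, ?_⟩
  rw [Metric.tendsto_atTop]
  intro δ hδ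
  obtain ⟨j, hj⟩ := exists_nat_gt (1 / δ)
  have h3 := (tendsto_atTop.mp hMtop (j + 1)).and (eventually_ge_atTop ⌈H₁⌉₊)
  obtain ⟨H₂, hH₂⟩ := eventually_atTop.mp h3
  refine ⟨H₂, fun H hH => ?_⟩
  obtain ⟨h4, h5⟩ := hH₂ H hH
  have hH1 : H₁ ≤ (H : ℝ) := (Nat.le_ceil H₁).trans (by exact_mod_cast h5)
  have h6 := hH₁ H hH1
  have h7 := hHf (M H - 1) H (hMspec H (by omega))
  have h8 : M H - 1 + 1 = M H := by omega
  rw [h8] at h7
  have h9 : (((M H - 1 : ℕ) : ℝ) + 1) = (M H : ℝ) := by exact_mod_cast h8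
  rw [h9] at h7
  have hset1 : ({f : Fin s → MvPolynomial ι ℤ | (∀ j, (f j).IsHomogeneous (e j + 2) ∧
      ∀ m, |(f j).coeff m| ≤ (H : ℤ)) ∧ ElsS f ∧ WeakApproxS (M H) f} : Set _).ncard =
      ((sysZ ι e (H : ℝ)).filter (fun f => ElsS f ∧ WeakApproxS (M H) f)).card := by
    rw [← ncard_eq_filterS]
    congr 1
    ext f
    simp only [Set.mem_ofPred_eq, isF_iff]
  have hset2 : ({f : Fin s → MvPolynomial ι ℤ | (∀ j, (f j).IsHomogeneous (e j + 2) ∧
      ∀ m, |(f j).coeff m| ≤ (H : ℤ)) ∧ ElsS f} : Set _).ncard =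
      ((sysZ ι e (H : ℝ)).filter (fun f => ElsS f)).card := by
    rw [← ncard_eq_filterS]
    congr 1
    ext f
    simp only [Set.mem_ofPred_eq, isF_iff]
  rw [hset1, hset2]
  obtain ⟨Fo, hFo⟩ : ∃ Fo, Fo = sysZ ι e (H : ℝ) := ⟨_, rfl⟩
  have hFo0 : (0:ℝ) < Fo.card := by
    rw [hFo]; exact_mod_cast card_sysZ_pos (ι := ι) e (Nat.cast_nonneg H)
  rw [← hFo] at h6 h7 ⊢
  obtain ⟨a, ha⟩ : ∃ a : ℝ, a = ((Fo.filter (fun f => ElsS f ∧ WeakApproxS (M H) f)).card : ℝ) :=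
    ⟨_, rfl⟩
  obtain ⟨b, hb⟩ : ∃ b : ℝ, b = ((Fo.filter (fun f => ElsS f)).card : ℝ) := ⟨_, rfl⟩
  have hab' : a ≤ b := by
    rw [ha, hb]
    exact card_filter_le' _ _ _ (fun f _ h => h.1)
  have hcb : c * Fo.card ≤ b := by
    refine h6.trans ?_
    rw [hb]
    exact card_filter_le' _ _ _ (fun f hf h => els_of_zero h)
  have hM0 : (0:ℝ) < M H := by
    have : 0 < M H := by omega
    exact_mod_cast this
  have hba : b ≤ a + c / (M H) * Fo.card := by
    have h10 : (Fo.filter (fun f => ElsS f)) ⊆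
        (Fo.filter (fun f => ElsS f ∧ WeakApproxS (M H) f)) ∪
        (Fo.filter (fun f => ¬ WeakApproxS (M H) f)) := by
      intro f hf
      rw [Finset.mem_filter] at hf
      rw [Finset.mem_union, Finset.mem_filter, Finset.mem_filter]
      by_cases hw : WeakApproxS (M H) f
      · left; exact ⟨hf.1, hf.2, hw⟩
      · right; exact ⟨hf.1, hw⟩
    have h11 := (Finset.card_le_card h10).trans (Finset.card_union_le _ _)
    have h12 : b ≤ a + ((Fo.filter (fun f => ¬ WeakApproxS (M H) f)).card : ℝ) := by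
      rw [ha, hb]; exact_mod_cast h11
    linarith
  have hb0 : 0 < b := lt_of_lt_of_le (by positivity) hcb
  rw [← ha, ← hb, Real.dist_eq]
  have h13 : a / b - 1 = -((b - a) / b) := by field_simp; ring
  rw [h13, abs_neg, abs_of_nonneg (div_nonneg (by linarith) hb0.le), div_lt_iff₀ hb0]
  have h14 : c / (M H) * Fo.card ≤ 1 / (M H) * b := by
    have := mul_le_mul_of_nonneg_left hcb (by positivity : 0 ≤ 1 / (M H : ℝ))
    refine le_trans (le_of_eq ?_) this
    ring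
  have h15 : 1 / (M H : ℝ) < δ := by
    rw [div_lt_iff₀ hM0]
    rw [div_lt_iff₀ hδ] at hj
    have h16 : (j : ℝ) + 1 ≤ M H := by exact_mod_cast h4
    have h17 := mul_le_mul_of_nonneg_left h16 hδ.le
    linarith
  have h18 := mul_lt_mul_of_pos_right h15 hb0
  linarith

end Pool.Agent.Y438.C
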